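import Pool.Agent.Run7.h54.CP.Data

/-!
# Finiteness of `Γ_{2,4}`

The relations of `Γ_{2,4}` imply that the subgroup generated by `σ₁, σ₂` is finite (it is an abelian
group generated by two translations of finite order, extended by a rotation of order four), and
that it has finite index, by the coset enumeration in `Data`.
-/

set_option autoImplicit false

namespace Pool.Agent.Run7.h54.CP

/-- a group generated by a rotation of order four and two translations is finite -/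
theorem finite_H {G : Type*} [Group G] (a b : G) (ha : a ^ 4 = 1) (hb : b ^ 4 = 1)
    (hab : (a * b) ^ 2 = 1) (hr : (a⁻¹ * b) ^ 2 * (a * b⁻¹) ^ 4 = 1) :
    Finite (Subgroup.closure {a, b}) := by
  obtain ⟨x, hx⟩ : ∃ x, x = a⁻¹ * b := ⟨_, rfl⟩
  obtain ⟨y, hy⟩ : ∃ y, y = a * b⁻¹ := ⟨_, rfl⟩
  have hab' : a * b * (a * b) = 1 := by rw [← pow_two]; exact hab
  have hba : b * a = a⁻¹ * b⁻¹ := by
    have h1 : a * (b * a) * b = 1 := by simpa [mul_assoc] using hab'
    have h2 : a * (b * a) = b⁻¹ := by rw [eq_inv_iff_mul_eq_one]; exact h1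
    rw [← h2]; group
  have ha3 : a⁻¹ * a⁻¹ * a⁻¹ = a := by
    have h1 : a * a * a * a = 1 := by simpa only [pow_succ, pow_zero, one_mul] using ha
    have h2 : a⁻¹ * a⁻¹ * a⁻¹ * (a * a * a * a) = a := by group
    rw [h1, mul_one] at h2; exact h2
  have hb3 : b⁻¹ * b⁻¹ * b⁻¹ = b := by
    have h1 : b * b * b * b = 1 := by simpa only [pow_succ, pow_zero, one_mul] using hb
    have h2 : b⁻¹ * b⁻¹ * b⁻¹ * (b * b * b * b) = b := by group
    rw [h1, mul_one] at h2; exact h2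
  have c1 : a⁻¹ * x * a = y := by
    rw [hx, hy]
    calc a⁻¹ * (a⁻¹ * b) * a = a⁻¹ * a⁻¹ * (b * a) := by group
      _ = a⁻¹ * a⁻¹ * a⁻¹ * b⁻¹ := by rw [hba]; group
      _ = a * b⁻¹ := by rw [ha3]
  have c2 : a⁻¹ * y * a = x⁻¹ := by rw [hx, hy]; group
  have hxy : x * y = y * x := by
    have h1 : x * y = a⁻¹ * a⁻¹ * (b⁻¹ * b⁻¹) := by
      rw [hx, hy]
      calc a⁻¹ * b * (a * b⁻¹) = a⁻¹ * (b * a) * b⁻¹ := by group
        _ = a⁻¹ * a⁻¹ * (b⁻¹ * b⁻¹) := by rw [hba]; group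
    have h3 : b⁻¹ * a⁻¹ = a * b := by
      have h4 : (a * b)⁻¹ = a * b := by rw [inv_eq_iff_mul_eq_one]; exact hab'
      rw [← h4]; group
    have h2 : y * x = a * a * (b * b) := by
      rw [hx, hy]
      calc a * b⁻¹ * (a⁻¹ * b) = a * (b⁻¹ * a⁻¹) * b := by group
        _ = a * a * (b * b) := by rw [h3]; group
    have h5 : a⁻¹ * a⁻¹ = a * a := by
      have h6 : a⁻¹ * a⁻¹ * a⁻¹ * a⁻¹ = 1 := by rw [ha3]; group
      have h7 : a⁻¹ * a⁻¹ * a⁻¹ * a⁻¹ * (a * a) = a⁻¹ * a⁻¹ := by group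
      rw [h6, one_mul] at h7; exact h7.symm
    have h6 : b⁻¹ * b⁻¹ = b * b := by
      have h6 : b⁻¹ * b⁻¹ * b⁻¹ * b⁻¹ = 1 := by rw [hb3]; group
      have h7 : b⁻¹ * b⁻¹ * b⁻¹ * b⁻¹ * (b * b) = b⁻¹ * b⁻¹ := by group
      rw [h6, one_mul] at h7; exact h7.symm
    rw [h1, h2, h5, h6]
  have hcomm : Commute x y := hxy
  have e1 : x ^ 2 * y ^ 4 = 1 := by rw [hx, hy]; exact hr
  have conj : ∀ z : G, a⁻¹ * z * a = MulAut.conj a⁻¹ z := by intro z; simp
  have e2 : y ^ 2 * (x⁻¹) ^ 4 = 1 := by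
    have := congrArg (MulAut.conj a⁻¹) e1
    rw [map_mul, map_pow, map_pow, ← conj, ← conj, c1, c2, map_one] at this
    exact this
  have e3 : y ^ 2 = x ^ 4 := by
    rw [inv_pow, mul_inv_eq_one] at e2; exact e2
  have e4 : x ^ 10 = 1 := by
    have : y ^ 4 = x ^ 8 := by
      calc y ^ 4 = (y ^ 2) ^ 2 := by rw [← pow_mul]
        _ = x ^ 8 := by rw [e3, ← pow_mul]
    rw [this, ← pow_add] at e1; exact e1
  have e5 : y ^ 5 = 1 ∨ y ^ 20 = 1 := by
    right
    calc y ^ 20 = (y ^ 2) ^ 10 := by rw [← pow_mul]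
      _ = (x ^ 10) ^ 4 := by rw [e3, ← pow_mul, ← pow_mul]
      _ = 1 := by rw [e4, one_pow]
  have e6 : y ^ 20 = 1 := by
    rcases e5 with h | h
    · calc y ^ 20 = (y ^ 5) ^ 4 := by rw [← pow_mul]
        _ = 1 := by rw [h, one_pow]
    · exact h
  -- the finite set of all `a ^ i * x ^ j * y ^ k`
  have fa : (Subgroup.zpowers a : Set G).Finite := by
    have : IsOfFinOrder a := isOfFinOrder_iff_pow_eq_one.mpr ⟨4, by norm_num, ha⟩
    exact this.finite_zpowers
  have fx : (Subgroup.zpowers x : Set G).Finite := by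
    have : IsOfFinOrder x := isOfFinOrder_iff_pow_eq_one.mpr ⟨10, by norm_num, e4⟩
    exact this.finite_zpowers
  have fy : (Subgroup.zpowers y : Set G).Finite := by
    have : IsOfFinOrder y := isOfFinOrder_iff_pow_eq_one.mpr ⟨20, by norm_num, e6⟩
    exact this.finite_zpowers
  have fin : {g : G | ∃ i j k : ℤ, g = a ^ i * x ^ j * y ^ k}.Finite := by
    refine ((fa.prod (fx.prod fy)).image (fun p : G × G × G => p.1 * p.2.1 * p.2.2)).subset ?_
    rintro g ⟨i, j, k, rfl⟩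
    exact ⟨(a ^ i, x ^ j, y ^ k), ⟨⟨i, rfl⟩, ⟨j, rfl⟩, ⟨k, rfl⟩⟩, rfl⟩
  have cx : ∀ j : ℤ, x ^ j * a = a * y ^ j := by
    intro j
    have : a⁻¹ * x ^ j * a = y ^ j := by
      rw [conj, map_zpow, ← conj, c1]
    rw [← this]; group
  have cy : ∀ j : ℤ, y ^ j * a = a * x ^ (-j) := by
    intro j
    have : a⁻¹ * y ^ j * a = x ^ (-j) := by
      rw [conj, map_zpow, ← conj, c2, inv_zpow, zpow_neg]
    rw [← this]; group
  have cx' : ∀ j : ℤ, x ^ j * a⁻¹ = a⁻¹ * y ^ (-j) := by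
    intro j
    have h1 := cy (-j)
    rw [neg_neg] at h1
    calc x ^ j * a⁻¹ = a⁻¹ * (a * x ^ j) * a⁻¹ := by group
      _ = a⁻¹ * (y ^ (-j) * a) * a⁻¹ := by rw [h1]
      _ = a⁻¹ * y ^ (-j) := by group
  have cy' : ∀ j : ℤ, y ^ j * a⁻¹ = a⁻¹ * x ^ j := by
    intro j
    have h1 := cx j
    calc y ^ j * a⁻¹ = a⁻¹ * (a * y ^ j) * a⁻¹ := by group
      _ = a⁻¹ * (x ^ j * a) * a⁻¹ := by rw [h1]
      _ = a⁻¹ * x ^ j := by group
  have hbx : b = a * x := by rw [hx]; group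
  have zc : ∀ i j : ℤ, x ^ i * y ^ j = y ^ j * x ^ i := fun i j => (hcomm.zpow_zpow i j)
  have key : ∀ g ∈ Subgroup.closure {a, b}, ∃ i j k : ℤ, g = a ^ i * x ^ j * y ^ k := by
    intro g hg
    have stepa : ∀ g : G, (∃ i j k : ℤ, g = a ^ i * x ^ j * y ^ k) →
        ∃ i j k : ℤ, g * a = a ^ i * x ^ j * y ^ k := by
      rintro g ⟨i, j, k, rfl⟩
      refine ⟨i + 1, -k, j, ?_⟩
      calc a ^ i * x ^ j * y ^ k * a = a ^ i * x ^ j * (y ^ k * a) := by group
        _ = a ^ i * (x ^ j * a) * x ^ (-k) := by rw [cy]; group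
        _ = a ^ i * a * (y ^ j * x ^ (-k)) := by rw [cx]; group
        _ = a ^ (i + 1) * x ^ (-k) * y ^ j := by rw [← zc]; group
    have stepa' : ∀ g : G, (∃ i j k : ℤ, g = a ^ i * x ^ j * y ^ k) →
        ∃ i j k : ℤ, g * a⁻¹ = a ^ i * x ^ j * y ^ k := by
      rintro g ⟨i, j, k, rfl⟩
      refine ⟨i - 1, k, -j, ?_⟩
      calc a ^ i * x ^ j * y ^ k * a⁻¹ = a ^ i * x ^ j * (y ^ k * a⁻¹) := by group
        _ = a ^ i * (x ^ j * a⁻¹) * x ^ k := by rw [cy']; group
        _ = a ^ i * a⁻¹ * (y ^ (-j) * x ^ k) := by rw [cx']; group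
        _ = a ^ (i - 1) * x ^ k * y ^ (-j) := by rw [← zc]; group
    have stepx : ∀ (g : G) (e : ℤ), (∃ i j k : ℤ, g = a ^ i * x ^ j * y ^ k) →
        ∃ i j k : ℤ, g * x ^ e = a ^ i * x ^ j * y ^ k := by
      rintro g e ⟨i, j, k, rfl⟩
      refine ⟨i, j + e, k, ?_⟩
      calc a ^ i * x ^ j * y ^ k * x ^ e = a ^ i * x ^ j * (y ^ k * x ^ e) := by group
        _ = a ^ i * x ^ j * (x ^ e * y ^ k) := by rw [zc]
        _ = a ^ i * x ^ (j + e) * y ^ k := by group
    induction hg using Subgroup.closure_induction_right with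
    | one => exact ⟨0, 0, 0, by simp⟩
    | mul_right g _ z hz ih =>
      rcases hz with rfl | hz
      · exact stepa g ih
      · rw [Set.mem_singleton_iff] at hz
        rw [hz, hbx, ← mul_assoc]
        have := stepx _ 1 (stepa g ih)
        rwa [zpow_one] at this
    | mul_inv_cancel g _ z hz ih =>
      rcases hz with rfl | hz
      · exact stepa' g ih
      · rw [Set.mem_singleton_iff] at hz
        rw [hz, hbx, mul_inv_rev, ← mul_assoc]
        have := stepa' _ (stepx g (-1) ih)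
        rwa [zpow_neg_one] at this
  exact (fin.subset fun g hg => key g hg).to_subtype

/-- The relations of `Γ_{2,4}` define a finite group. -/
theorem finite_G {G : Type*} [Group G] (a b c : G) (ha : a ^ 4 = 1) (hb : b ^ 4 = 1)
    (hc : c ^ 3 = 1) (hab : (a * b) ^ 2 = 1) (hbc : (b * c) ^ 2 = 1) (habc : (a * b * c) ^ 2 = 1)
    (hr : (a⁻¹ * b) ^ 2 * (a * b⁻¹) ^ 4 = 1) (hgen : Subgroup.closure {a, b, c} = ⊤) :
    Finite G := by
  obtain ⟨u, hu⟩ : ∃ u, u = b * c := ⟨_, rfl⟩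
  obtain ⟨v, hv⟩ : ∃ v, v = a * b * c := ⟨_, rfl⟩
  obtain ⟨w, hw⟩ : ∃ w, w = a * b := ⟨_, rfl⟩
  have uu : u * u = 1 := by rw [hu, ← pow_two]; exact hbc
  have vv : v * v = 1 := by rw [hv, ← pow_two]; exact habc
  have ww : w * w = 1 := by rw [hw, ← pow_two]; exact hab
  have vu : v * u = a := by
    have : v = a * u := by rw [hv, hu, mul_assoc]
    rw [this, mul_assoc, uu, mul_one]
  have uv : u * v = a⁻¹ := by
    rw [← vu, mul_inv_rev, inv_eq_of_mul_eq_one_right uu, inv_eq_of_mul_eq_one_right vv]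
  have wv : w * v = c := by
    have : v = w * c := by rw [hv, hw]
    rw [this, ← mul_assoc, ww, one_mul]
  have uvw : u * v * w = b := by rw [uv, hw]; group
  -- the subgroup and the action
  let H : Subgroup G := Subgroup.closure {a, b}
  have haH : a ∈ H := Subgroup.subset_closure (by simp)
  have hbH : b ∈ H := Subgroup.subset_closure (by simp)
  have hH : Finite H := finite_H a b ha hb hab hr
  let gen : ℕ → G := fun g => if g = 0 then u else if g = 1 then v else if g = 2 then w else 1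
  have g0 : gen 0 = u := rfl
  have g1 : gen 1 = v := rfl
  have g2 : gen 2 = w := rfl
  have hgg : ∀ g, gen g * gen g = 1 := by
    intro g
    by_cases h0 : g = 0
    · rw [h0, g0, uu]
    · by_cases h1 : g = 1
      · rw [h1, g1, vv]
      · by_cases h2 : g = 2
        · rw [h2, g2, ww]
        · have : gen g = 1 := by simp only [gen, h0, h1, h2, if_false]
          rw [this, one_mul]
  let act : ℕ → G ⧸ H → G ⧸ H := fun g x => gen g • x
  have hinv : ∀ g x, act g (act g x) = x := by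
    intro g x
    show gen g • gen g • x = x
    rw [smul_smul, hgg, one_smul]
  have hev : ∀ (l : List ℕ) (x : G ⧸ H), ev act l x = ((l.map gen).prod)⁻¹ • x := by
    intro l
    induction l with
    | nil => intro x; simp [ev]
    | cons g l ih =>
      intro x
      rw [ev_cons, ih, List.map_cons, List.prod_cons, mul_inv_rev, mul_smul]
      have : (gen g)⁻¹ = gen g := inv_eq_of_mul_eq_one_right (hgg g)
      rw [this]
  have xinv : ∀ {p : G}, p = 1 → ∀ x : G ⧸ H, p⁻¹ • x = x := by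
    intro p hp x; rw [hp, inv_one, one_smul]
  have r0 : (([0, 1, 0, 1, 0, 1, 0, 1] : List ℕ).map gen).prod = 1 := by
    have : (([0, 1, 0, 1, 0, 1, 0, 1] : List ℕ).map gen).prod = (u * v) ^ 4 := by
      simp only [List.map_cons, List.map_nil, List.prod_cons, List.prod_nil, g0, g1, pow_succ,
        pow_zero, one_mul, mul_one, mul_assoc]
    rw [this, uv, inv_pow, ha, inv_one]
  have r1 : (([1, 2, 1, 2, 1, 2] : List ℕ).map gen).prod = 1 := by
    have h1 : (([1, 2, 1, 2, 1, 2] : List ℕ).map gen).prod = (v * w) ^ 3 := by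
      simp only [List.map_cons, List.map_nil, List.prod_cons, List.prod_nil, g1, g2, pow_succ,
        pow_zero, one_mul, mul_one, mul_assoc]
    have h2 : v * w = c⁻¹ := by
      rw [← wv, mul_inv_rev, inv_eq_of_mul_eq_one_right ww, inv_eq_of_mul_eq_one_right vv]
    rw [h1, h2, inv_pow, hc, inv_one]
  have r2 : (([0, 1, 2, 0, 1, 2, 0, 1, 2, 0, 1, 2] : List ℕ).map gen).prod = 1 := by
    have : (([0, 1, 2, 0, 1, 2, 0, 1, 2, 0, 1, 2] : List ℕ).map gen).prod = (u * v * w) ^ 4 := by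
      simp only [List.map_cons, List.map_nil, List.prod_cons, List.prod_nil, g0, g1, g2, pow_succ,
        pow_zero, one_mul, mul_one, mul_assoc]
    rw [this, uvw, hb]
  have r3 : (([0, 1, 0, 1, 2, 0, 1, 0, 1, 2, 1, 0, 2, 1, 0, 1, 0, 2, 1, 0, 1, 0, 2, 1, 0, 1, 0, 2,
      1, 0] : List ℕ).map gen).prod = 1 := by
    have h1 : (([0, 1, 0, 1, 2, 0, 1, 0, 1, 2, 1, 0, 2, 1, 0, 1, 0, 2, 1, 0, 1, 0, 2, 1, 0, 1, 0,
        2, 1, 0] : List ℕ).map gen).prod = (u * v * (u * v) * w) ^ 2 * ((v * u) * w) *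
          (v * u * (v * u) * w) ^ 3 * (v * u) := by
      simp only [List.map_cons, List.map_nil, List.prod_cons, List.prod_nil, g0, g1, g2, pow_succ,
        pow_zero, one_mul, mul_one, mul_assoc]
    have h2 : u * v * (u * v) * w = a⁻¹ * b := by rw [uv, hw]; group
    have hba : b * a = a⁻¹ * b⁻¹ := by
      have h1 : a * (b * a) * b = 1 := by
        have h0 := hab
        rw [pow_two] at h0
        simpa [mul_assoc] using h0
      have h2 : a * (b * a) = b⁻¹ := by rw [eq_inv_iff_mul_eq_one]; exact h1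
      rw [← h2]; group
    have ha3 : a⁻¹ * a⁻¹ * a⁻¹ = a := by
      have h1 : a * a * a * a = 1 := by simpa only [pow_succ, pow_zero, one_mul] using ha
      have h2 : a⁻¹ * a⁻¹ * a⁻¹ * (a * a * a * a) = a := by group
      rw [h1, mul_one] at h2; exact h2
    have c1 : a⁻¹ * (a⁻¹ * b) * a = a * b⁻¹ := by
      calc a⁻¹ * (a⁻¹ * b) * a = a⁻¹ * a⁻¹ * (b * a) := by group
        _ = a⁻¹ * a⁻¹ * a⁻¹ * b⁻¹ := by rw [hba]; group
        _ = a * b⁻¹ := by rw [ha3]
    have h3 : (v * u) * w = a⁻¹ * (a⁻¹ * b) := by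
      rw [vu, hw]
      calc a * (a * b) = a * a * b := by group
        _ = a⁻¹ * a⁻¹ * a⁻¹ * (a⁻¹ * a⁻¹ * a⁻¹) * b := by rw [ha3]
        _ = a⁻¹ * a⁻¹ * (a⁻¹ * a⁻¹ * a⁻¹ * a⁻¹) * b := by group
        _ = a⁻¹ * a⁻¹ * (a * a⁻¹) * b := by rw [ha3]
        _ = a⁻¹ * (a⁻¹ * b) := by group
    have h2' : v * u * (v * u) * w = a⁻¹ * b := by
      rw [vu, hw]
      calc a * a * (a * b) = a * (a * a) * b := by group
        _ = a⁻¹ * a⁻¹ * a⁻¹ * (a⁻¹ * a⁻¹ * a⁻¹ * (a⁻¹ * a⁻¹ * a⁻¹)) * b := by rw [ha3]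
        _ = a⁻¹ * a⁻¹ * a⁻¹ * (a⁻¹ * (a⁻¹ * a⁻¹ * a⁻¹) * (a⁻¹ * a⁻¹)) * b := by group
        _ = a⁻¹ * a⁻¹ * a⁻¹ * (a⁻¹ * a * (a⁻¹ * a⁻¹)) * b := by rw [ha3]
        _ = a⁻¹ * a⁻¹ * a⁻¹ * (a⁻¹ * a⁻¹) * b := by group
        _ = a * (a⁻¹ * a⁻¹) * b := by rw [ha3]
        _ = a⁻¹ * b := by group
    rw [h1, h2, h2', h3, vu]
    have h4 : (a⁻¹ * b) ^ 2 * (a⁻¹ * (a⁻¹ * b)) * (a⁻¹ * b) ^ 3 * a =
        (a⁻¹ * b) ^ 2 * (a⁻¹ * (a⁻¹ * b) * a) ^ 4 := by
      have h5 : (a⁻¹ * (a⁻¹ * b) * a) ^ 4 = a⁻¹ * (a⁻¹ * b) ^ 4 * a := by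
        have := map_pow (MulAut.conj a⁻¹) (a⁻¹ * b) 4
        simpa using this.symm
      rw [h5, pow_succ' (a⁻¹ * b) 3]; simp only [mul_assoc]
    rw [h4, c1, hr]
  have hrel : ∀ r ∈ rels, (∀ g ∈ r, g < 3) ∧ ∀ x, ev act r x = x := by
    intro r hr'
    simp only [rels, List.mem_cons, List.not_mem_nil, or_false] at hr'
    rcases hr' with rfl | rfl | rfl | rfl
    · exact ⟨by decide, fun x => by rw [hev]; exact xinv r0 x⟩
    · exact ⟨by decide, fun x => by rw [hev]; exact xinv r1 x⟩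
    · exact ⟨by decide, fun x => by rw [hev]; exact xinv r2 x⟩
    · exact ⟨by decide, fun x => by rw [hev]; exact xinv r3 x⟩
  have hfix : ∀ h : G, h ∈ H → h • ((1 : G) : G ⧸ H) = ((1 : G) : G ⧸ H) := by
    intro h hh
    rw [MulAction.Quotient.smul_mk, smul_eq_mul, mul_one]
    exact QuotientGroup.eq.mpr (by simpa using H.inv_mem hh)
  have hsub : ∀ s ∈ subs, (∀ g ∈ s, g < 3) ∧
      ev act s ((1 : G) : G ⧸ H) = ((1 : G) : G ⧸ H) := by
    intro s hs
    simp only [subs, List.mem_cons, List.not_mem_nil, or_false] at hs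
    rcases hs with rfl | rfl
    · refine ⟨by decide, ?_⟩
      rw [hev]
      refine hfix _ (H.inv_mem ?_)
      have : (([1, 0] : List ℕ).map gen).prod = a := by
        simp only [List.map_cons, List.map_nil, List.prod_cons, List.prod_nil, g0, g1, mul_one, vu]
      rw [this]; exact haH
    · refine ⟨by decide, ?_⟩
      rw [hev]
      refine hfix _ (H.inv_mem ?_)
      have : (([2] : List ℕ).map gen).prod = a * b := by
        simp only [List.map_cons, List.map_nil, List.prod_cons, List.prod_nil, g2, mul_one, hw]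
      rw [this]; exact H.mul_mem haH hbH
  obtain ⟨S, hS, h1S, hcl⟩ := check_sound ok (by norm_num) act hinv hrel ((1 : G) : G ⧸ H) hsub
  -- `S` is everything
  let K : Subgroup G :=
    { carrier := {g | ∀ x : G ⧸ H, g • x ∈ S ↔ x ∈ S}
      mul_mem' := by
        intro g h hg hh x
        rw [mul_smul, hg, hh]
      one_mem' := by intro x; rw [one_smul]
      inv_mem' := by
        intro g hg x
        have := hg (g⁻¹ • x)
        rw [smul_inv_smul] at this
        exact this.symm }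
  have hK : ∀ g < 3, gen g ∈ K := by
    intro g hg x
    constructor
    · intro h
      have := hcl _ h g hg
      have h2 : act g (gen g • x) = x := hinv g x
      rwa [h2] at this
    · intro h; exact hcl x h g hg
  have ku : u ∈ K := hK 0 (by norm_num)
  have kv : v ∈ K := hK 1 (by norm_num)
  have kw : w ∈ K := hK 2 (by norm_num)
  have hKtop : K = ⊤ := by
    rw [eq_top_iff, ← hgen, Subgroup.closure_le]
    rintro g (rfl | rfl | rfl)
    · rw [SetLike.mem_coe, ← vu]; exact K.mul_mem kv ku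
    · rw [SetLike.mem_coe, ← uvw]; exact K.mul_mem (K.mul_mem ku kv) kw
    · rw [SetLike.mem_coe, ← wv]; exact K.mul_mem kw kv
  have huniv : S = Set.univ := by
    ext x
    refine ⟨fun _ => trivial, fun _ => ?_⟩
    induction x using QuotientGroup.induction_on with
    | H g =>
      have hg : g ∈ K := by rw [hKtop]; trivial
      have := (hg ((1 : G) : G ⧸ H)).mpr h1S
      rw [MulAction.Quotient.smul_mk, smul_eq_mul, mul_one] at this
      exact this
  have hQ : Finite (G ⧸ H) := by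
    rw [← Set.finite_univ_iff, ← huniv]; exact hS
  exact Finite.of_equiv _ (Subgroup.groupEquivQuotientProdSubgroup (s := H)).symm

end Pool.Agent.Run7.h54.CP
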