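import Pool.Agent.H15R2.TC3

/-!
# A coset enumeration machine for groups generated by involutions

A verified replay machine for coset enumerations without coincidences, acting on a set `X` by three
involutions `act 0`, `act 1`, `act 2`.  The table is the trie of `Pool.Agent.H15R2.TC3`; the digit
number `4 * c + g` is the entry of the coset `c` at the letter `g` (`0` = undefined, `d + 1` = the
coset `d`).  First all cosets are defined along a spanning tree, then a list of scans of relators is
replayed; finally it is checked that the table is complete, so that the orbit is finite.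
-/

set_option autoImplicit false

namespace Pool.Agent.Run7.h54.CP

open H15.TC

/-- edge lookup -/
noncomputable def nx (T : Tr) (c g : ℕ) : ℕ := gt T (Nat.add (Nat.mul (nat_lit 4) c) g)

/-- edge update (only of an empty entry) -/
noncomputable def setE (T : Tr) (c g v : ℕ) : Tr := put T (Nat.add (Nat.mul (nat_lit 4) c) g) v

/-- edge update in continuation passing style -/
noncomputable def setEK {α : Type} (T : Tr) (c g v : ℕ) (K : Tr → α) : α :=
  putK T (Nat.add (Nat.mul (nat_lit 4) c) g) v K

theorem setEK_eq {α : Type} (T : Tr) (c g v : ℕ) (K : Tr → α) :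
    setEK T c g v K = K (setE T c g v) := putK_eq _ _ _ _

/-- follow a word; `z` if the word is followed to its end, otherwise `K a g w`, where `a` is the last
coset and `g :: w` is what remains of the word -/
noncomputable def fwdK {α : Type} (T : Tr) (z : α) (K : ℕ → ℕ → List ℕ → α) (r : List ℕ) : ℕ → α :=
  List.rec (motive := fun _ => ℕ → α) (fun _ => z)
    (fun g w ih c => Nat.rec (motive := fun _ => α) (K c g w) (fun d _ => ih d) (nx T c g)) r

/-- follow a word backwards; `b + 1` if this is possible, and `0` otherwise -/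
noncomputable def bwd (T : Tr) (c : ℕ) (w : List ℕ) : ℕ :=
  List.rec (motive := fun _ => ℕ) (Nat.succ c)
    (fun g _ ih => Nat.rec (motive := fun _ => ℕ) (nat_lit 0) (fun d _ => nx T d g) ih) w

/-- scan the relator `r` at the coset `c` -/
noncomputable def scan1K {α : Type} (T : Tr) (r : List ℕ) (c : ℕ) (K : Tr → α) : α :=
  fwdK T (K T) (fun a g w => Nat.rec (motive := fun _ => α) (K T)
    (fun b _ => setEK T a g (Nat.succ b) fun T' => setEK T' b g (Nat.succ a) K) (bwd T c w)) r c

/-- the `n`-th entry of a list of words -/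
noncomputable def nth (l : List (List ℕ)) : ℕ → List ℕ :=
  List.rec (motive := fun _ => ℕ → List ℕ) (fun _ => [])
    (fun r _ ih n => Nat.rec (motive := fun _ => List ℕ) r (fun k _ => ih k) n) l

/-- all scans; the number `8 * c + i` stands for the scan of the relator `i` at `c` -/
noncomputable def scansK {α : Type} (rels : List (List ℕ)) (K : Tr → α) (ss : List ℕ) : Tr → α :=
  List.rec (motive := fun _ => Tr → α) K
    (fun s _ ih T => force s fun s =>
      scan1K T (nth rels (Nat.mod s (nat_lit 8))) (Nat.div s (nat_lit 8)) ih) ss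

/-- scans of the generators of the subgroup at the coset `0` -/
noncomputable def subsK {α : Type} (K : Tr → α) (ss : List (List ℕ)) : Tr → α :=
  List.rec (motive := fun _ => Tr → α) K (fun s _ ih T => scan1K T s (nat_lit 0) ih) ss

/-- definitions: the `n`-th entry `4 * c + g` defines the coset `n` as `c·g` -/
noncomputable def buildK {α : Type} (K : Tr → α) (ds : List ℕ) : ℕ → Tr → α :=
  List.rec (motive := fun _ => ℕ → Tr → α) (fun _ T => K T)
    (fun d _ ih n T => force n fun n => force d fun d =>
      Bool.rec (motive := fun _ => α) (ih (Nat.succ n) T)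
        (setEK T (Nat.div d (nat_lit 4)) (Nat.mod d (nat_lit 4)) (Nat.succ n) fun T' =>
          setEK T' n (Nat.mod d (nat_lit 4)) (Nat.succ (Nat.div d (nat_lit 4))) fun T'' =>
            ih (Nat.succ n) T'')
        (Nat.ble (Nat.succ (Nat.div d (nat_lit 4))) n)) ds

/-- an entry is defined and points to a coset with a number less than `N` -/
noncomputable def okE (T : Tr) (N c g : ℕ) : Bool :=
  Nat.rec (motive := fun _ => Bool) false (fun d _ => Nat.ble (Nat.succ d) N) (nx T c g)

/-- the rows with the numbers less than `n` are complete -/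
noncomputable def chk (T : Tr) (N n : ℕ) : Bool :=
  Nat.rec (motive := fun _ => Bool) true
    (fun c ih => Bool.rec (motive := fun _ => Bool) false
      (Bool.rec (motive := fun _ => Bool) false
        (Bool.rec (motive := fun _ => Bool) false ih (okE T N c (nat_lit 2)))
        (okE T N c (nat_lit 1))) (okE T N c (nat_lit 0))) n

/-- the checker -/
noncomputable def check (rels subs : List (List ℕ)) (defs scs : List ℕ) (N : ℕ) : Bool :=
  buildK (fun T0 => subsK (fun T1 => scansK rels (fun T => chk T N N) (unpack scs) T1) subs T0)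
    (unpack defs) (nat_lit 1) .nil

/-! ### soundness -/

section sound

variable {X : Type*}

/-- action of a word -/
def ev (act : ℕ → X → X) (w : List ℕ) (x : X) : X := w.foldl (fun y g => act g y) x

theorem ev_nil (act : ℕ → X → X) (x : X) : ev act [] x = x := rfl

theorem ev_cons (act : ℕ → X → X) (g : ℕ) (w : List ℕ) (x : X) :
    ev act (g :: w) x = ev act w (act g x) := rfl

variable {act : ℕ → X → X}

theorem ev_inj (hinv : ∀ g x, act g (act g x) = x) (w : List ℕ) :
    ∀ x y, ev act w x = ev act w y → x = y := by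
  induction w with
  | nil => intro x y h; exact h
  | cons g w ih =>
    intro x y h
    have h1 := ih _ _ (by simpa [ev_cons] using h)
    rw [← hinv g x, h1, hinv]

/-- the table is correct -/
def Inv (act : ℕ → X → X) (val : ℕ → X) (T : Tr) : Prop :=
  ∀ c g d, g < 3 → nx T c g = d + 1 → act g (val c) = val d

theorem nx_setE (T : Tr) {c g v c' g' : ℕ} (hg : g < 4) (hg' : g' < 4) :
    nx (setE T c g v) c' g' = nx T c' g' ∨ (c' = c ∧ g' = g ∧ nx (setE T c g v) c' g' = v) := by
  have h := gt_put T (Nat.add (Nat.mul (nat_lit 4) c) g) v (Nat.add (Nat.mul (nat_lit 4) c') g')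
  rcases h with h | ⟨h1, h2⟩
  · exact Or.inl h
  · have h3 : 4 * c' + g' = 4 * c + g := h1
    exact Or.inr ⟨by omega, by omega, h2⟩

theorem Inv.setE {val : ℕ → X} {T : Tr} (h : Inv act val T) {c g v : ℕ} (hg : g < 4)
    (hv : g < 3 → act g (val c) = val v) : Inv act val (setE T c g (v + 1)) := by
  intro c' g' d hg' hd
  rcases nx_setE T (v := v + 1) (c := c) (c' := c') hg (show g' < 4 by omega) with h1 | ⟨rfl, rfl, h3⟩
  · exact h c' g' d hg' (by rw [← h1]; exact hd)
  · have : d = v := by rw [h3] at hd; omega
    rw [this]; exact hv hg'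

theorem fwdK_ind {α : Type} {P : α → Prop} {val : ℕ → X} {T : Tr} (hT : Inv act val T) {z : α}
    (hz : P z) {K : ℕ → ℕ → List ℕ → α} (r : List ℕ) :
    ∀ c, (∀ g ∈ r, g < 3) → (∀ a g w, (∀ g' ∈ g :: w, g' < 3) →
      ev act (g :: w) (val a) = ev act r (val c) → P (K a g w)) → P (fwdK T z K r c) := by
  induction r with
  | nil => intro c _ _; exact hz
  | cons g w ih =>
    intro c hr hK
    show P (Nat.rec (motive := fun _ => α) (K c g w) (fun d _ => fwdK T z K w d) (nx T c g))
    cases hc : nx T c g with
    | zero => exact hK c g w hr rfl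
    | succ d =>
      refine ih d (fun g' hg' => hr g' (List.mem_cons_of_mem _ hg')) ?_
      intro a g' w' h1 h2
      refine hK a g' w' h1 ?_
      rw [h2, ev_cons, hT c g d (hr g List.mem_cons_self) hc]

theorem bwd_val (hinv : ∀ g x, act g (act g x) = x) {val : ℕ → X} {T : Tr} (hT : Inv act val T)
    (c : ℕ) (w : List ℕ) : ∀ b, (∀ g ∈ w, g < 3) → bwd T c w = b + 1 → ev act w (val b) = val c := by
  induction w with
  | nil =>
    intro b _ h
    have h1 : Nat.succ c = b + 1 := h
    have : b = c := by omega
    rw [this]; rfl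
  | cons g w ih =>
    intro b hw h
    have h1 : (Nat.rec (motive := fun _ => ℕ) (nat_lit 0) (fun d _ => nx T d g) (bwd T c w) : ℕ)
      = b + 1 := h
    cases hd : bwd T c w with
    | zero => rw [hd] at h1; exact absurd h1 (Nat.succ_ne_zero b).symm
    | succ d =>
      rw [hd] at h1
      have h2 : nx T d g = b + 1 := h1
      have h3 := hT d g b (hw g List.mem_cons_self) h2
      rw [ev_cons, ← h3, hinv]
      exact ih d (fun g' hg' => hw g' (List.mem_cons_of_mem _ hg')) hd

theorem scan1K_ind {α : Type} {P : α → Prop} (hinv : ∀ g x, act g (act g x) = x) {val : ℕ → X}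
    {T : Tr} (hT : Inv act val T) {r : List ℕ} (hr : ∀ g ∈ r, g < 3) {c : ℕ}
    (hc : ev act r (val c) = val c) {K : Tr → α} (hK : ∀ T', Inv act val T' → P (K T')) :
    P (scan1K T r c K) := by
  unfold scan1K
  refine fwdK_ind hT (hK T hT) r c hr ?_
  intro a g w hw h1
  rw [hc] at h1
  cases hb : bwd T c w with
  | zero => exact hK T hT
  | succ b =>
    have hg : g < 3 := hw g List.mem_cons_self
    have h2 := bwd_val hinv hT c w b (fun g' hg' => hw g' (List.mem_cons_of_mem _ hg')) hb
    have h3 : act g (val a) = val b := by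
      refine ev_inj hinv w _ _ ?_
      rw [h2, ← h1]; rfl
    show P (setEK T a g (Nat.succ b) fun T' => setEK T' b g (Nat.succ a) K)
    rw [setEK_eq, setEK_eq]
    refine hK _ (Inv.setE (Inv.setE hT (by omega) fun _ => h3) (by omega) fun _ => ?_)
    rw [← h3, hinv]

theorem nth_mem (l : List (List ℕ)) : ∀ n, nth l n ∈ l ∨ nth l n = [] := by
  induction l with
  | nil => intro n; right; rfl
  | cons r l ih =>
    intro n
    cases n with
    | zero => left; exact List.mem_cons_self
    | succ k =>
      rcases ih k with h | h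
      · left; exact List.mem_cons_of_mem _ h
      · right; exact h

theorem scansK_ind {α : Type} {P : α → Prop} (hinv : ∀ g x, act g (act g x) = x) {val : ℕ → X}
    {rels : List (List ℕ)} (hrel : ∀ r ∈ rels, (∀ g ∈ r, g < 3) ∧ ∀ x, ev act r x = x)
    {K : Tr → α} (hK : ∀ T', Inv act val T' → P (K T')) (ss : List ℕ) :
    ∀ T, Inv act val T → P (scansK rels K ss T) := by
  induction ss with
  | nil => intro T hT; exact hK T hT
  | cons s ss ih =>
    intro T hT
    show P (force s fun s => scan1K T (nth rels (Nat.mod s (nat_lit 8))) (Nat.div s (nat_lit 8))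
      (scansK rels K ss))
    rw [force_eq]
    rcases nth_mem rels (Nat.mod s (nat_lit 8)) with h | h
    · exact scan1K_ind hinv hT (hrel _ h).1 ((hrel _ h).2 _) ih
    · rw [h]
      exact scan1K_ind hinv hT (by simp) rfl ih

theorem subsK_ind {α : Type} {P : α → Prop} (hinv : ∀ g x, act g (act g x) = x) {val : ℕ → X}
    {K : Tr → α} (hK : ∀ T', Inv act val T' → P (K T')) (ss : List (List ℕ)) :
    (∀ s ∈ ss, (∀ g ∈ s, g < 3) ∧ ev act s (val 0) = val 0) →
    ∀ T, Inv act val T → P (subsK K ss T) := by
  induction ss with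
  | nil => intro _ T hT; exact hK T hT
  | cons s ss ih =>
    intro hs T hT
    show P (scan1K T s (nat_lit 0) (subsK K ss))
    exact scan1K_ind hinv hT (hs s List.mem_cons_self).1 (hs s List.mem_cons_self).2
      (ih fun s' hs' => hs s' (List.mem_cons_of_mem _ hs'))

theorem nx_nil (c g : ℕ) : nx .nil c g = 0 := gt_nil _

theorem buildK_ind {α : Type} {P : α → Prop} (hinv : ∀ g x, act g (act g x) = x) (x0 : X)
    {K : Tr → α} (hK : ∀ val T', val 0 = x0 → Inv act val T' → P (K T')) (ds : List ℕ) :
    ∀ (n : ℕ) (T : Tr), 0 < n → (∃ val : ℕ → X, val 0 = x0 ∧ Inv act val T) →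
    (∀ c g d, g < 3 → nx T c g = d + 1 → c < n ∧ d < n) → P (buildK K ds n T) := by
  induction ds with
  | nil => intro n T _ ⟨val, h0, hT⟩ _; exact hK val T h0 hT
  | cons d ds ih =>
    intro n T hn ⟨val, h0, hT⟩ hf
    show P (force n fun n => force d fun d =>
      Bool.rec (motive := fun _ => α) (buildK K ds (Nat.succ n) T)
        (setEK T (Nat.div d (nat_lit 4)) (Nat.mod d (nat_lit 4)) (Nat.succ n) fun T' =>
          setEK T' n (Nat.mod d (nat_lit 4)) (Nat.succ (Nat.div d (nat_lit 4))) fun T'' =>
            buildK K ds (Nat.succ n) T'')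
        (Nat.ble (Nat.succ (Nat.div d (nat_lit 4))) n))
    rw [force_eq, force_eq]
    cases hd : Nat.ble (Nat.succ (Nat.div d (nat_lit 4))) n with
    | false =>
      refine ih (n + 1) T (by omega) ⟨val, h0, hT⟩ ?_
      intro c g e hg he
      have := hf c g e hg he
      omega
    | true =>
      have hd' : Nat.div d (nat_lit 4) < n := Nat.le_of_ble_eq_true hd
      have hg4 : Nat.mod d (nat_lit 4) < 4 := Nat.mod_lt _ (by norm_num)
      show P (setEK T (Nat.div d (nat_lit 4)) (Nat.mod d (nat_lit 4)) (Nat.succ n) fun T' =>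
          setEK T' n (Nat.mod d (nat_lit 4)) (Nat.succ (Nat.div d (nat_lit 4))) fun T'' =>
            buildK K ds (Nat.succ n) T'')
      rw [setEK_eq, setEK_eq]
      refine ih (n + 1) _ (by omega) ⟨Function.update val n
        (act (Nat.mod d (nat_lit 4)) (val (Nat.div d (nat_lit 4)))), ?_, ?_⟩ ?_
      · rw [Function.update_of_ne (by omega)]; exact h0
      · have hT' : Inv act (Function.update val n
            (act (Nat.mod d (nat_lit 4)) (val (Nat.div d (nat_lit 4))))) T := by
          intro c g e hg he
          have := hf c g e hg he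
          rw [Function.update_of_ne (by omega), Function.update_of_ne (by omega)]
          exact hT c g e hg he
        refine Inv.setE (Inv.setE hT' hg4 fun _ => ?_) hg4 fun _ => ?_
        · rw [Function.update_of_ne (Nat.ne_of_lt hd'), Function.update_self]
        · rw [Function.update_self, Function.update_of_ne (Nat.ne_of_lt hd'), hinv]
      · intro c g e hg he
        rcases nx_setE (setE T (Nat.div d (nat_lit 4)) (Nat.mod d (nat_lit 4)) (Nat.succ n))
          (c := n) (g := Nat.mod d (nat_lit 4)) (v := Nat.succ (Nat.div d (nat_lit 4))) (c' := c)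
          (g' := g) hg4 (by omega) with h1 | ⟨rfl, rfl, h3⟩
        · rw [h1] at he
          rcases nx_setE T (c := Nat.div d (nat_lit 4)) (g := Nat.mod d (nat_lit 4))
            (v := Nat.succ n) (c' := c) (g' := g) hg4 (by omega) with h1 | ⟨rfl, rfl, h3⟩
          · rw [h1] at he
            have := hf c g e hg he
            omega
          · rw [h3] at he; omega
        · rw [h3] at he; omega

theorem okE_spec {T : Tr} {N c g : ℕ} (h : okE T N c g = true) : ∃ d, d < N ∧ nx T c g = d + 1 := by
  have h1 : (Nat.rec (motive := fun _ => Bool) false (fun d _ => Nat.ble (Nat.succ d) N)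
    (nx T c g) : Bool) = true := h
  cases hc : nx T c g with
  | zero => rw [hc] at h1; exact absurd h1 (by simp)
  | succ d =>
    rw [hc] at h1
    exact ⟨d, Nat.le_of_ble_eq_true h1, rfl⟩

theorem chk_spec {T : Tr} {N : ℕ} (n : ℕ) (h : chk T N n = true) :
    ∀ c < n, ∀ g < 3, ∃ d, d < N ∧ nx T c g = d + 1 := by
  induction n with
  | zero => intro c hc; omega
  | succ n ih =>
    have h1 : (Bool.rec (motive := fun _ => Bool) false
      (Bool.rec (motive := fun _ => Bool) false
        (Bool.rec (motive := fun _ => Bool) false (chk T N n) (okE T N n (nat_lit 2)))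
        (okE T N n (nat_lit 1))) (okE T N n (nat_lit 0)) : Bool) = true := h
    cases h0 : okE T N n (nat_lit 0) with
    | false => rw [h0] at h1; exact absurd h1 (by simp)
    | true =>
      rw [h0] at h1
      cases h1' : okE T N n (nat_lit 1) with
      | false => rw [h1'] at h1; exact absurd h1 (by simp)
      | true =>
        rw [h1'] at h1
        cases h2' : okE T N n (nat_lit 2) with
        | false => rw [h2'] at h1; exact absurd h1 (by simp)
        | true =>
          rw [h2'] at h1
          intro c hc g hg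
          by_cases hcn : c = n
          · subst hcn
            have hg' : g = 0 ∨ g = 1 ∨ g = 2 := by omega
            rcases hg' with rfl | rfl | rfl
            · exact okE_spec h0
            · exact okE_spec h1'
            · exact okE_spec h2'
          · exact ih h1 c (by omega) g hg

/-- **Soundness of the checker** -/
theorem check_sound {rels subs : List (List ℕ)} {defs scs : List ℕ} {N : ℕ}
    (h : check rels subs defs scs N = true) (hN : 0 < N) (act : ℕ → X → X)
    (hinv : ∀ g x, act g (act g x) = x)
    (hrel : ∀ r ∈ rels, (∀ g ∈ r, g < 3) ∧ ∀ x, ev act r x = x) (x0 : X)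
    (hsub : ∀ s ∈ subs, (∀ g ∈ s, g < 3) ∧ ev act s x0 = x0) :
    ∃ S : Set X, S.Finite ∧ x0 ∈ S ∧ ∀ x ∈ S, ∀ g < 3, act g x ∈ S := by
  revert h
  unfold check
  refine buildK_ind (P := fun b : Bool => b = true → ∃ S : Set X, S.Finite ∧ x0 ∈ S ∧
    ∀ x ∈ S, ∀ g < 3, act g x ∈ S) hinv x0 ?_ (unpack defs) 1 .nil one_pos
    ⟨fun _ => x0, rfl, fun c g d _ hd => by rw [nx_nil] at hd; omega⟩
    (by intro c g d _ hd; rw [nx_nil] at hd; omega)
  intro val T0 h0 hT0
  refine subsK_ind (P := fun b : Bool => b = true → ∃ S : Set X, S.Finite ∧ x0 ∈ S ∧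
    ∀ x ∈ S, ∀ g < 3, act g x ∈ S) hinv ?_ subs (by rw [h0]; exact hsub) T0 hT0
  intro T1 hT1
  refine scansK_ind (P := fun b : Bool => b = true → ∃ S : Set X, S.Finite ∧ x0 ∈ S ∧
    ∀ x ∈ S, ∀ g < 3, act g x ∈ S) hinv hrel ?_ (unpack scs) T1 hT1
  intro T hT hchk
  refine ⟨val '' {c | c < N}, (Set.finite_lt_nat N).image val, ⟨0, hN, h0⟩, ?_⟩
  rintro x ⟨c, hc, rfl⟩ g hg
  obtain ⟨d, hd, he⟩ := chk_spec N hchk c hc g hg
  exact ⟨d, hd, (hT c g d hg he).symm⟩

end sound

end Pool.Agent.Run7.h54.CP
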